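import Pool.Agent.H56.Ramsey.Data

/-!
The diagonal bound obtained from the theorem `T1` with the pointwise certificate.
-/

open Finset Pool.Agent.H92

namespace Pool.Agent.H56.Ramsey

/-- `T1` with the pointwise certificate implies `R(k,k) ≤ exp ((1.23974606 + o(1)) k)`. -/
theorem goodDiag_of_t1 (hT : T1P CertI) : GoodDiag (R 1239746060000000000) :=
  goodDiag_of_check hT fam_ok diag_ok

theorem exponent_lt : R 1239746060000000000 < Real.log 3.455 := by
  rw [Real.lt_log_iff_exp_lt (by norm_num)]
  have h := ((mem_R 1239746060000000000).exp (by decide +kernel)).ge_of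
    (p := 3454900000000000000) (by decide +kernel)
  have hS : (SC : ℝ) = 10 ^ 18 := by unfold SC; norm_num
  rw [hS] at h
  refine lt_of_le_of_lt h ?_
  norm_num

/-- `T1` with the pointwise certificate implies `R(k,k) ≤ 3.455 ^ k` for all large `k`. -/
theorem eventually_le_of_t1 (hT : T1P CertI) :
    ∀ᶠ k : ℕ in Filter.atTop, (ramseyNumber k : ℝ) ≤ (3.455 : ℝ) ^ k :=
  eventually_ramseyNumber_le_pow_of_goodDiag (goodDiag_of_t1 hT) (by norm_num) exponent_lt

end Pool.Agent.H56.Ramsey
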