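import Pool.Agent.H56.Ramsey.Cert
import Pool.Agent.H92.RamseyG

/-!
A kernel-checkable family of lines for the bootstrap theorem with the pointwise certificate.
-/

open Finset Pool.Agent.H92

namespace Pool.Agent.H56.Ramsey

/-- data of a certificate: `a q L M` are given separately -/
structure CD where
  /-- split point -/
  t : ℤ
  /-- parameter -/
  x1 : ℤ
  /-- parameter -/
  x2 : ℤ
  /-- parameter -/
  x3 : ℤ
  /-- parameter -/
  s1 : ℤ
  /-- parameter -/
  s2 : ℤ

/-- data of a line: the line is `(u, v)`, with mirror image `(v, u)` -/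
structure LD where
  /-- first coordinate -/
  u : ℤ
  /-- second coordinate -/
  v : ℤ
  /-- exponent -/
  a : ℤ
  /-- the parameter `M` -/
  M : ℤ
  /-- the density -/
  q : ℤ
  /-- index of the line used for `Z` -/
  z : ℕ
  /-- is this line mirrored -/
  zb : Bool
  /-- index of the line bounding the cone -/
  p : ℕ
  /-- is this line mirrored -/
  pb : Bool
  /-- multiplier -/
  s : ℤ
  /-- the certificate -/
  c : CD

/-- first coordinate of line `j`, mirrored if `b` -/
def gu (D : List LD) (j : ℕ) (b : Bool) : ℤ :=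
  match D[j]? with
  | some d => bif b then d.v else d.u
  | none => 0

/-- second coordinate of line `j`, mirrored if `b` -/
def gv (D : List LD) (j : ℕ) (b : Bool) : ℤ := gu D j (!b)

/-- check of one line -/
def lineChk (D : List LD) (d : LD) : Bool :=
  decide (0 ≤ d.u) && decide (0 ≤ d.v) && Iv.ok (Iv.pt (-d.v)) &&
  (bif decide (d.q = 0) then
    Iv.ok (Iv.pt (-d.u)) &&
    decide ((Iv.exp (Iv.pt (-d.u))).hi + (Iv.exp (Iv.pt (-d.v))).hi ≤ SC)
  else
    decide (d.z < D.length) && decide (d.p < D.length) && decide (0 < d.q) &&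
    decide (0 < d.a) && decide (d.a ≤ SC) && decide (0 ≤ d.M) && decide (0 ≤ gu D d.z d.zb) &&
    decide ((Iv.exp (Iv.pt (-d.v))).hi + d.q < SC) && decide (0 ≤ d.s) &&
    decide (gu D d.z d.zb * SC + d.s * gu D d.p d.pb ≤ (SC + d.a + d.s) * d.u) &&
    decide ((d.M + gv D d.z d.zb) * SC + d.s * gv D d.p d.pb ≤ (SC + d.a + d.s) * d.v) &&
    certChk d.a d.q (gu D d.z d.zb) d.M d.c.t d.c.x1 d.c.x2 d.c.x3 d.c.s1 d.c.s2)

theorem stepCP_swap {P : ℝ → ℝ → ℝ → ℝ → Prop} {ι : Type} [Fintype ι] (e : ι ≃ ι)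
    {u v : ι → ℝ} (hu : ∀ m, v m = u (e m)) (hv : ∀ m, u m = v (e m)) {x y q : ℝ}
    (h : StepCP P u v x y q) : StepCP P v u x y q := by
  obtain ⟨a, L, M, v', w, s, ha, ha1, hq, hq1, hL, hM, hc, hw, hw1, hwu, hwv, hs, h1, h2⟩ := h
  have e1 : ∑ m, w (e m) * v m = ∑ m, w m * u m := by
    rw [← Equiv.sum_comp e (fun m => w m * u m)]
    exact Finset.sum_congr rfl fun m _ => by rw [hu]
  have e2 : ∑ m, w (e m) * u m = ∑ m, w m * v m := by
    rw [← Equiv.sum_comp e (fun m => w m * v m)]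
    exact Finset.sum_congr rfl fun m _ => by rw [hv]
  have e3 : ∑ m, s (e m) * v m = ∑ m, s m * u m := by
    rw [← Equiv.sum_comp e (fun m => s m * u m)]
    exact Finset.sum_congr rfl fun m _ => by rw [hu]
  have e4 : ∑ m, s (e m) * u m = ∑ m, s m * v m := by
    rw [← Equiv.sum_comp e (fun m => s m * v m)]
    exact Finset.sum_congr rfl fun m _ => by rw [hv]
  have e5 : ∑ m, s (e m) = ∑ m, s m := Equiv.sum_comp e s
  have e6 : ∑ m, w (e m) = 1 := by rw [← hw1]; exact Equiv.sum_comp e w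
  refine ⟨a, L, M, v', fun m => w (e m), fun m => s (e m), ha, ha1, hq, hq1, hL, hM, hc,
    fun m => hw _, e6, ?_, ?_, fun m => hs _, ?_, ?_⟩
  · rw [e1]; exact hwu
  · rw [e2]; exact hwv
  · rw [e3, e5]; exact h1
  · rw [e4, e5]; exact h2

/-- real coordinates -/
noncomputable def ru (D : List LD) (i : Fin D.length × Bool) : ℝ := R (gu D i.1 i.2)

/-- real coordinates -/
noncomputable def rv (D : List LD) (i : Fin D.length × Bool) : ℝ := R (gv D i.1 i.2)

/-- the mirror involution -/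
def flip (n : ℕ) : Fin n × Bool ≃ Fin n × Bool where
  toFun i := (i.1, !i.2)
  invFun i := (i.1, !i.2)
  left_inv i := by simp
  right_inv i := by simp

theorem gu_eq {D : List LD} (j : Fin D.length) : gu D j false = D[j].u := by
  unfold gu
  simp

theorem gu_eq' {D : List LD} (j : Fin D.length) : gu D j true = D[j].v := by
  unfold gu
  simp

theorem lineChk_sound {D : List LD} (j : Fin D.length) (h : lineChk D D[j] = true) :
    0 ≤ ru D (j, false) ∧ 0 ≤ ru D (j, true) ∧
    (Real.exp (-ru D (j, false)) + Real.exp (-ru D (j, true)) ≤ 1 ∨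
      ∃ q : ℝ, q + Real.exp (-ru D (j, true)) < 1 ∧
        StepCP CertI (ru D) (rv D) (ru D (j, false)) (ru D (j, true)) q) := by
  set d := D[j] with hd
  have hu : ru D (j, false) = R d.u := by
    unfold ru; rw [gu_eq]
  have hv : ru D (j, true) = R d.v := by
    unfold ru; rw [gu_eq']
  unfold lineChk at h
  rw [Bool.and_eq_true, Bool.and_eq_true, Bool.and_eq_true, decide_eq_true_eq,
    decide_eq_true_eq] at h
  obtain ⟨⟨⟨hu0, hv0⟩, hvok⟩, h⟩ := h
  rw [hu, hv]
  refine ⟨R_nonneg hu0, R_nonneg hv0, ?_⟩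
  have hnv : Iv.Mem (Real.exp (-R d.v)) (Iv.exp (Iv.pt (-d.v))) := by
    have h1 := (mem_R (-d.v)).exp hvok
    have h2 : R (-d.v) = - R d.v := by unfold R; push_cast; ring
    rwa [h2] at h1
  by_cases hq : d.q = 0
  · left
    simp only [hq, decide_true, cond_true, Bool.and_eq_true, decide_eq_true_eq] at h
    have hnu : Iv.Mem (Real.exp (-R d.u)) (Iv.exp (Iv.pt (-d.u))) := by
      have h1 := (mem_R (-d.u)).exp h.1
      have h2 : R (-d.u) = - R d.u := by unfold R; push_cast; ring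
      rwa [h2] at h1
    have h3 := (hnu.add hnv).ge_of (p := SC) h.2
    rwa [div_self SC_posR.ne'] at h3
  · right
    simp only [hq, decide_false, cond_false, Bool.and_eq_true, decide_eq_true_eq] at h
    obtain ⟨⟨⟨⟨⟨⟨⟨⟨⟨⟨⟨hz, hp⟩, hq0⟩, ha0⟩, ha1⟩, hM⟩, hL⟩, hqv⟩, hs⟩, h1⟩, h2⟩, hc⟩ := h
    have hcert := certChk_sound hc
    have hqv' : R d.q + Real.exp (-R d.v) < 1 := by
      have h3 := hnv.ge_of (p := (Iv.exp (Iv.pt (-d.v))).hi) le_rfl
      have h4 := R_lt hqv
      rw [R_SC, R_add] at h4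
      have h5 : R ((Iv.exp (Iv.pt (-d.v))).hi) = ((Iv.exp (Iv.pt (-d.v))).hi : ℝ) / SC := rfl
      rw [h5] at h4
      linarith
    refine ⟨R d.q, hqv', ?_⟩
    have hS := SC_posR
    have hexp := Real.exp_pos (-R d.v)
    refine ⟨R d.a, R (gu D d.z d.zb), R d.M, R (gv D d.z d.zb),
      Pi.single (⟨d.z, hz⟩, d.zb) 1, Pi.single (⟨d.p, hp⟩, d.pb) (R d.s),
      R_pos ha0, R_le_one ha1, R_pos hq0, by linarith, R_nonneg hL, R_nonneg hM, hcert,
      ?_, ?_, ?_, ?_, ?_, ?_, ?_⟩
    · intro m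
      rcases eq_or_ne m (⟨d.z, hz⟩, d.zb) with rfl | hm
      · simp
      · rw [Pi.single_eq_of_ne hm]
    · simp
    · rw [Finset.sum_eq_single (⟨d.z, hz⟩, d.zb)]
      · simp [ru]
      · intro m _ hm
        rw [Pi.single_eq_of_ne hm, zero_mul]
      · simp
    · rw [Finset.sum_eq_single (⟨d.z, hz⟩, d.zb)]
      · simp [rv]
      · intro m _ hm
        rw [Pi.single_eq_of_ne hm, zero_mul]
      · simp
    · intro m
      rcases eq_or_ne m (⟨d.p, hp⟩, d.pb) with rfl | hm
      · simp [R_nonneg hs]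
      · rw [Pi.single_eq_of_ne hm]
    · have e1 : ∑ m, (Pi.single (⟨d.p, hp⟩, d.pb) (R d.s) : Fin D.length × Bool → ℝ) m * ru D m
          = R d.s * R (gu D d.p d.pb) := by
        rw [Finset.sum_eq_single (⟨d.p, hp⟩, d.pb)]
        · simp [ru]
        · intro m _ hm
          rw [Pi.single_eq_of_ne hm, zero_mul]
        · simp
      have e2 : ∑ m, (Pi.single (⟨d.p, hp⟩, d.pb) (R d.s) : Fin D.length × Bool → ℝ) m
          = R d.s := by simp
      rw [e1, e2]
      have h1' : ((gu D d.z d.zb : ℤ) : ℝ) * SC + d.s * (gu D d.p d.pb : ℤ)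
          ≤ (SC + d.a + d.s) * d.u := by exact_mod_cast h1
      rw [R_mul_SC (gu D d.z d.zb), R_mul_SC (gu D d.p d.pb), R_mul_SC d.s, R_mul_SC d.a,
        R_mul_SC d.u] at h1'
      have h3 : (R (gu D d.z d.zb) + R d.s * R (gu D d.p d.pb)) * (SC * SC)
          ≤ ((1 + R d.a + R d.s) * R d.u) * (SC * SC) := by
        refine le_trans (le_of_eq ?_) (h1'.trans (le_of_eq ?_)) <;> ring
      exact le_of_mul_le_mul_right h3 (by positivity)
    · have e1 : ∑ m, (Pi.single (⟨d.p, hp⟩, d.pb) (R d.s) : Fin D.length × Bool → ℝ) m * rv D m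
          = R d.s * R (gv D d.p d.pb) := by
        rw [Finset.sum_eq_single (⟨d.p, hp⟩, d.pb)]
        · simp [rv]
        · intro m _ hm
          rw [Pi.single_eq_of_ne hm, zero_mul]
        · simp
      have e2 : ∑ m, (Pi.single (⟨d.p, hp⟩, d.pb) (R d.s) : Fin D.length × Bool → ℝ) m
          = R d.s := by simp
      rw [e1, e2]
      have h1' : ((d.M : ℝ) + (gv D d.z d.zb : ℤ)) * SC + d.s * (gv D d.p d.pb : ℤ)
          ≤ (SC + d.a + d.s) * d.v := by exact_mod_cast h2
      rw [R_mul_SC (gv D d.z d.zb), R_mul_SC (gv D d.p d.pb), R_mul_SC d.s, R_mul_SC d.a,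
        R_mul_SC d.v, R_mul_SC d.M] at h1'
      have h3 : (R d.M + R (gv D d.z d.zb) + R d.s * R (gv D d.p d.pb)) * (SC * SC)
          ≤ ((1 + R d.a + R d.s) * R d.v) * (SC * SC) := by
        refine le_trans (le_of_eq ?_) (h1'.trans (le_of_eq ?_)) <;> ring
      exact le_of_mul_le_mul_right h3 (by positivity)

/-- All lines of a checked family are good. -/
theorem good_of_check (hB : BootstrapP CertI) {D : List LD}
    (h : D.all (lineChk D) = true) (i : Fin D.length × Bool) : Good (ru D i) (rv D i) := by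
  rw [List.all_eq_true] at h
  have hl : ∀ j : Fin D.length, lineChk D D[j] = true := fun j => h _ (List.getElem_mem _)
  have hrv : ∀ m : Fin D.length × Bool, rv D m = ru D (flip _ m) := by
    rintro ⟨j, b⟩; rfl
  have hru : ∀ m : Fin D.length × Bool, ru D m = rv D (flip _ m) := by
    rintro ⟨j, b⟩
    unfold rv ru gv flip
    simp
  refine hB _ (ru D) (rv D) ?_ ?_ ?_ i
  · rintro ⟨j, b⟩
    have := lineChk_sound j (hl j)
    cases b
    · exact this.1
    · exact this.2.1
  · rintro ⟨j, b⟩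
    have := lineChk_sound j (hl j)
    rw [hrv]
    cases b
    · exact this.2.1
    · exact this.1
  · rintro ⟨j, b⟩
    obtain ⟨h1, h2, h3⟩ := lineChk_sound j (hl j)
    cases b
    · have e : rv D (j, false) = ru D (j, true) := by rw [hrv]; rfl
      rw [e]
      rcases h3 with h3 | ⟨q, hq, h3⟩
      · left; exact h3
      · right
        exact ⟨q, Real.exp (-ru D (j, true)), hq, Or.inr h3, Or.inl le_rfl⟩
    · have e : rv D (j, true) = ru D (j, false) := by rw [hrv]; rfl
      rw [e]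
      rcases h3 with h3 | ⟨q, hq, h3⟩
      · left; rw [add_comm]; exact h3
      · right
        refine ⟨Real.exp (-ru D (j, true)), q, by rw [add_comm]; exact hq, Or.inl le_rfl,
          Or.inr ?_⟩
        exact stepCP_swap (flip _) hrv hru h3

/-- check of the final diagonal step; the last argument is the exponent `c` -/
def diagChk (D : List LD) (a M q : ℤ) (z : ℕ) (zb : Bool) (c : CD) (cc : ℤ) : Bool :=
  decide (z < D.length) && decide (0 < a) && decide (a ≤ SC) && decide (0 < q) &&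
  decide (2 * q < SC) && decide (0 ≤ M) && decide (0 ≤ gu D z zb) &&
  decide ((gu D z zb + M + gv D z zb) * SC ≤ (SC + a) * cc) &&
  certChk a q (gu D z zb) M c.t c.x1 c.x2 c.x3 c.s1 c.s2

/-- The diagonal bound given by a checked family. -/
theorem goodDiag_of_check (hT : T1P CertI) {D : List LD} (h : D.all (lineChk D) = true)
    {a M q : ℤ} {z : ℕ} {zb : Bool} {c : CD} {cc : ℤ} (hd : diagChk D a M q z zb c cc = true) :
    GoodDiag (R cc) := by
  unfold diagChk at hd
  simp only [Bool.and_eq_true, decide_eq_true_eq] at hd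
  obtain ⟨⟨⟨⟨⟨⟨⟨⟨hz, ha⟩, ha1⟩, hq⟩, hq2⟩, hM⟩, hL⟩, h1⟩, hc⟩ := hd
  have hg := good_of_check (bootstrapP_of_T1P hT) h (⟨z, hz⟩, zb)
  have hg' : Good (R (gu D z zb)) (R (gv D z zb)) := hg
  have hS := SC_posR
  refine diagStepP_of_T1P hT (R a) (R q) (R (gu D z zb)) (R M) (R (gv D z zb)) (R cc)
    (R_pos ha) (R_le_one ha1) (R_pos hq) ?_ (R_nonneg hL) (R_nonneg hM) (certChk_sound hc) hg' ?_
  · have h2 := R_lt hq2
    rw [R_SC] at h2
    have h3 : R (2 * q) = 2 * R q := by unfold R; push_cast; ring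
    linarith
  · have h1' : (((gu D z zb : ℤ) : ℝ) + M + (gv D z zb : ℤ)) * SC ≤ (SC + a) * cc := by
      exact_mod_cast h1
    rw [R_mul_SC (gu D z zb), R_mul_SC (gv D z zb), R_mul_SC M, R_mul_SC a, R_mul_SC cc] at h1'
    have h3 : (R (gu D z zb) + R M + R (gv D z zb)) * (SC * SC)
        ≤ ((1 + R a) * R cc) * (SC * SC) := by
      refine le_trans (le_of_eq ?_) (h1'.trans (le_of_eq ?_)) <;> ring
    exact le_of_mul_le_mul_right h3 (by positivity)

end Pool.Agent.H56.Ramsey
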