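import Pool.Agent.H92.RamseyJ

/-!
`LevelSplit` (MP_28724c_co), helper56.
-/

set_option autoImplicit false

open Finset

namespace Pool.Agent.H56.Ramsey

open Pool.Agent.H92

lemma exp_le_quad_neg {t : ℝ} (ht : t ≤ 0) : Real.exp t ≤ 1 + t + t ^ 2 := by
  have h1 : Real.exp t * (1 - t) ≤ 1 := by
    have h2 := Real.add_one_le_exp (-t)
    have h3 : Real.exp t * Real.exp (-t) = 1 := by rw [← Real.exp_add]; simp
    nlinarith [Real.exp_pos t]
  have h2 := Real.add_one_le_exp t
  nlinarith

lemma exp_le_quad_pos {t : ℝ} (ht : 0 ≤ t) : Real.exp t ≤ 1 + t + t ^ 2 * Real.exp t := by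
  have h1 : Real.exp t * (1 - t) ≤ 1 := by
    have h2 := Real.add_one_le_exp (-t)
    have h3 : Real.exp t * Real.exp (-t) = 1 := by rw [← Real.exp_add]; simp
    nlinarith [Real.exp_pos t]
  nlinarith [Real.exp_pos t]

lemma err_bound {p y B C : ℝ} {W : ℕ} (hW : 2 ≤ W) (hp0 : 0 ≤ p) (hp1 : p ≤ 1)
    (hB : -B ≤ y) (hB0 : 0 ≤ B) (hC0 : 0 ≤ C) (hC : 0 < y → p * Real.exp y ≤ C) :
    p * Real.exp (y / W) ≤ p + p * y / W + (B ^ 2 + 8 * C) / W ^ 2 := by
  have hW0 : (0 : ℝ) < W := by
    have : 0 < W := by omega
    exact_mod_cast this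
  have hW2 : (2 : ℝ) ≤ W := by exact_mod_cast hW
  rcases le_or_gt y 0 with hy | hy
  · have h1 := exp_le_quad_neg (t := y / W) (div_nonpos_of_nonpos_of_nonneg hy hW0.le)
    have h2 : p * Real.exp (y / W) ≤ p * (1 + y / W + (y / W) ^ 2) :=
      mul_le_mul_of_nonneg_left h1 hp0
    have h3 : p * (y / W) ^ 2 ≤ (B ^ 2 + 8 * C) / W ^ 2 := by
      rw [div_pow]
      rw [← mul_div_assoc]
      apply div_le_div_of_nonneg_right _ (by positivity)
      have : y ^ 2 ≤ B ^ 2 := by nlinarith
      nlinarith [sq_nonneg y]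
    calc _ ≤ p * (1 + y / W + (y / W) ^ 2) := h2
      _ = p + p * y / W + p * (y / W) ^ 2 := by ring
      _ ≤ _ := by linarith
  · have h1 := exp_le_quad_pos (t := y / W) (by positivity)
    have h2 : p * Real.exp (y / W) ≤ p * (1 + y / W + (y / W) ^ 2 * Real.exp (y / W)) :=
      mul_le_mul_of_nonneg_left h1 hp0
    have h4 : y ^ 2 ≤ 8 * Real.exp (y / 2) := by
      have := Real.quadratic_le_exp_of_nonneg (x := y / 2) (by positivity)
      nlinarith
    have h5 : Real.exp (y / W) ≤ Real.exp (y / 2) := by
      apply Real.exp_le_exp.mpr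
      apply div_le_div_of_nonneg_left hy.le (by norm_num) hW2
    have h6 : y ^ 2 * Real.exp (y / W) ≤ 8 * Real.exp y := by
      have e : Real.exp (y / 2) * Real.exp (y / 2) = Real.exp y := by
        rw [← Real.exp_add]; congr 1; ring
      calc _ ≤ (8 * Real.exp (y / 2)) * Real.exp (y / 2) :=
            mul_le_mul h4 h5 (Real.exp_pos _).le (by positivity)
        _ = 8 * Real.exp y := by rw [← e]; ring
    have h3 : p * ((y / W) ^ 2 * Real.exp (y / W)) ≤ (B ^ 2 + 8 * C) / W ^ 2 := by
      have e : p * ((y / W) ^ 2 * Real.exp (y / W)) = (p * (y ^ 2 * Real.exp (y / W))) / W ^ 2 := by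
        field_simp
      rw [e]
      apply div_le_div_of_nonneg_right _ (by positivity)
      calc p * (y ^ 2 * Real.exp (y / W)) ≤ p * (8 * Real.exp y) :=
            mul_le_mul_of_nonneg_left h6 hp0
        _ = 8 * (p * Real.exp y) := by ring
        _ ≤ 8 * C := by linarith [hC hy]
        _ ≤ _ := by nlinarith [sq_nonneg B]
    calc _ ≤ p * (1 + y / W + (y / W) ^ 2 * Real.exp (y / W)) := h2
      _ = p + p * y / W + p * ((y / W) ^ 2 * Real.exp (y / W)) := by ring
      _ ≤ _ := by linarith

lemma exists_level {β v : ℝ} {J : ℕ} (hJ : 1 ≤ J) (h1 : 1 ≤ v) (h2 : v ≤ β ^ J) :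
    ∃ i < J, β ^ i ≤ v ∧ v ≤ β ^ (i + 1) := by
  induction J, hJ using Nat.le_induction with
  | base => exact ⟨0, by norm_num, by simpa using h1, by simpa using h2⟩
  | succ n hn ih =>
    rcases le_or_gt v (β ^ n) with h | h
    · obtain ⟨i, hi, h3⟩ := ih h
      exact ⟨i, by omega, h3⟩
    · exact ⟨n, by omega, h.le, h2⟩

section
variable {V : Type} [DecidableEq V]

lemma tot_pos {w : V → ℝ} {X : Finset V} (hX : X.Nonempty) (hw : ∀ x ∈ X, 0 < w x) :
    0 < totW w X := sum_pos hw hX

lemma ent_le {w : V → ℝ} {X : Finset V} (hX : X.Nonempty)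
    (hw : ∀ x ∈ X, 0 < w x) : entW w X ≤ Real.log X.card := by
  have hT := tot_pos hX hw
  have hn : (0 : ℝ) < X.card := by exact_mod_cast hX.card_pos
  have key : ∑ x ∈ X, w x * (Real.log (totW w X) - Real.log X.card - Real.log (w x)) ≤ 0 := by
    calc _ ≤ ∑ x ∈ X, (totW w X / X.card - w x) := by
          refine sum_le_sum (fun x hx => ?_)
          have hx0 := hw x hx
          have h1 := Real.log_le_sub_one_of_pos (x := totW w X / X.card / w x) (by positivity)
          rw [Real.log_div (by positivity) hx0.ne', Real.log_div hT.ne' hn.ne'] at h1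
          calc _ ≤ w x * (totW w X / X.card / w x - 1) := mul_le_mul_of_nonneg_left h1 hx0.le
            _ = _ := by field_simp
      _ = 0 := by
          rw [sum_sub_distrib, sum_const, nsmul_eq_mul]
          have : ∑ x ∈ X, w x = totW w X := rfl
          rw [this]; field_simp; ring
  have h2 : ∑ x ∈ X, w x * (Real.log (totW w X) - Real.log X.card - Real.log (w x)) =
      totW w X * (Real.log (totW w X) - Real.log X.card) - ∑ x ∈ X, w x * Real.log (w x) := by
    simp only [mul_sub]
    rw [sum_sub_distrib, sum_sub_distrib, ← sum_mul, ← sum_mul]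
    rfl
  rw [h2] at key
  unfold entW
  have h4 : Real.log (totW w X) - Real.log X.card ≤
      (∑ x ∈ X, w x * Real.log (w x)) / totW w X := by
    rw [le_div_iff₀ hT]; linarith
  linarith

lemma ent_ge {w : V → ℝ} {X : Finset V} (hX : X.Nonempty) {m M : ℝ} (hm : 0 < m)
    (h1 : ∀ x ∈ X, m ≤ w x) (h2 : ∀ x ∈ X, w x ≤ M) :
    Real.log X.card + Real.log m - Real.log M ≤ entW w X := by
  have hw : ∀ x ∈ X, 0 < w x := fun x hx => hm.trans_le (h1 x hx)
  have hT := tot_pos hX hw
  have hn : (0 : ℝ) < X.card := by exact_mod_cast hX.card_pos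
  have ha : Real.log X.card + Real.log m ≤ Real.log (totW w X) := by
    rw [← Real.log_mul hn.ne' hm.ne']
    apply Real.log_le_log (by positivity)
    unfold totW
    have := card_nsmul_le_sum X w m h1
    rwa [nsmul_eq_mul] at this
  have hb : (∑ x ∈ X, w x * Real.log (w x)) / totW w X ≤ Real.log M := by
    rw [div_le_iff₀ hT]
    unfold totW
    rw [mul_sum]
    refine sum_le_sum (fun x hx => ?_)
    rw [mul_comm]
    exact mul_le_mul_of_nonneg_right (Real.log_le_log (hw x hx) (h2 x hx)) (hw x hx).le
  unfold entW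
  linarith

end

theorem levelSplit : LevelSplit := by
  intro a β ha ha1 hβ J Q hJ hQ
  have hβ0 : (0 : ℝ) < β := by linarith
  have hlogβ : 0 < Real.log β := Real.log_pos hβ
  have hJr : (1 : ℝ) ≤ J := by exact_mod_cast hJ
  have hlogJ : 0 ≤ Real.log J := Real.log_nonneg hJr
  have hQ0 : 0 < Q := by nlinarith
  set B : ℝ := a * (J * Real.log β) + Q with hB
  set C : ℝ := β ^ (J + 1) with hC
  have hB0 : 0 ≤ B := by positivity
  have hC0 : 0 ≤ C := by positivity
  obtain ⟨W1, hW1⟩ := exists_nat_ge (J * (B ^ 2 + 8 * C))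
  refine ⟨max 2 W1, ?_⟩
  intro V _ w f X W hW hX hwX hf hS
  have hW2 : 2 ≤ W := le_trans (le_max_left _ _) hW
  have hWW : (J * (B ^ 2 + 8 * C) : ℝ) ≤ W := hW1.trans (by exact_mod_cast (le_max_right 2 W1).trans hW)
  have hW0 : (0 : ℝ) < W := by
    have : 0 < W := by omega
    exact_mod_cast this
  have hw0 : ∀ x ∈ X, 0 < w x := fun x hx => lt_of_lt_of_le one_pos (hwX x hx).1
  -- levels
  have hlev : ∀ x : V, ∃ i : ℕ, x ∈ X → i < J ∧ β ^ i ≤ w x ∧ w x ≤ β ^ (i + 1) := by
    intro x
    by_cases hx : x ∈ X
    · obtain ⟨i, hi, h⟩ := exists_level hJ (hwX x hx).1 (hwX x hx).2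
      exact ⟨i, fun _ => ⟨hi, h⟩⟩
    · exact ⟨0, fun h => absurd h hx⟩
  choose lev hlev using hlev
  set T : ℕ → Finset V := fun i => X.filter (fun x => lev x = i) with hTdef
  set I : Finset ℕ := (range J).filter (fun i => (T i).Nonempty) with hI
  have hmaps : ∀ x ∈ X, lev x ∈ I := by
    intro x hx
    rw [hI, mem_filter, mem_range]
    exact ⟨(hlev x hx).1, ⟨x, by rw [hTdef]; simp [hx]⟩⟩
  have hfib : ∀ g : V → ℝ, ∑ i ∈ I, ∑ x ∈ T i, g x = ∑ x ∈ X, g x :=
    fun g => sum_fiberwise_of_maps_to hmaps g
  have hTX : ∀ i, T i ⊆ X := fun i => filter_subset _ _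
  have hTne : ∀ i ∈ I, (T i).Nonempty := fun i hi => (mem_filter.mp hi).2
  have hIJ : ∀ i ∈ I, i < J := fun i hi => mem_range.mp (mem_filter.mp hi).1
  have hTb : ∀ i, ∀ x ∈ T i, β ^ i ≤ w x ∧ w x ≤ β ^ (i + 1) := by
    intro i x hx
    rw [hTdef, mem_filter] at hx
    obtain ⟨hx1, hx2⟩ := hx
    have := (hlev x hx1).2
    rwa [hx2] at this
  have hTw : ∀ i, ∀ x ∈ T i, 0 < w x := fun i x hx => hw0 x (hTX i hx)
  have htX := tot_pos hX hw0
  have htT : ∀ i ∈ I, 0 < totW w (T i) := fun i hi => tot_pos (hTne i hi) (hTw i)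
  set p : ℕ → ℝ := fun i => totW w (T i) / totW w X with hp
  set y : ℕ → ℝ := fun i => a * (entW w X - entW w (T i)) - Q with hy
  have hp0 : ∀ i ∈ I, 0 < p i := fun i hi => div_pos (htT i hi) htX
  have hsump : ∑ i ∈ I, p i = 1 := by
    rw [hp]
    simp only
    rw [← sum_div]
    have : ∑ i ∈ I, totW w (T i) = totW w X := hfib w
    rw [this, div_self htX.ne']
  have hp1 : ∀ i ∈ I, p i ≤ 1 := by
    intro i hi
    rw [← hsump]
    exact single_le_sum (f := p) (fun j hj => (hp0 j hj).le) hi
  -- the averages
  have hk : ∀ i ∈ I, (∑ x ∈ T i, w x * (1 + f x / W)) ≤ totW w (T i) * Real.exp (y i / W) := by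
    intro i hi
    have h1 := hS (T i) (hTX i) (hTne i hi) i (hIJ i hi) (hTb i)
    set kb := (∑ x ∈ T i, w x * (1 + f x / W)) / totW w (T i) with hkb
    have h2 : (max kb 0) ^ W ≤ (Real.exp (y i / W)) ^ W := by
      have e : (Real.exp (y i / W)) ^ W = Real.exp (y i) := by
        rw [← Real.exp_nat_mul]; congr 1; field_simp
      rw [e]
      have e2 : Real.exp (-Q) * Real.exp (a * entW w X) = Real.exp (a * entW w (T i)) * Real.exp (y i) := by
        rw [← Real.exp_add, ← Real.exp_add]; congr 1; rw [hy]; ring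
      rw [e2] at h1
      exact le_of_mul_le_mul_left h1 (Real.exp_pos _)
    have h3 : max kb 0 ≤ Real.exp (y i / W) :=
      le_of_pow_le_pow_left₀ (by omega) (Real.exp_pos _).le h2
    have h4 : kb ≤ Real.exp (y i / W) := (le_max_left _ _).trans h3
    have h5 : (∑ x ∈ T i, w x * (1 + f x / W)) = totW w (T i) * kb := by
      rw [hkb, mul_div_cancel₀]
      exact (htT i hi).ne'
    rw [h5]
    exact mul_le_mul_of_nonneg_left h4 (htT i hi).le
  have hone : 1 ≤ ∑ i ∈ I, p i * Real.exp (y i / W) := by
    have h1 : ∑ x ∈ X, w x * (1 + f x / W) = totW w X := by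
      have : ∀ x ∈ X, w x * (1 + f x / W) = w x + w x * f x / W := fun x _ => by ring
      rw [sum_congr rfl this, sum_add_distrib, ← sum_div, hf]
      simp [totW]
    have h2 : totW w X ≤ ∑ i ∈ I, totW w (T i) * Real.exp (y i / W) := by
      rw [← h1, ← hfib]
      exact sum_le_sum hk
    have h3 : ∑ i ∈ I, p i * Real.exp (y i / W) =
        (∑ i ∈ I, totW w (T i) * Real.exp (y i / W)) / totW w X := by
      rw [sum_div]
      refine sum_congr rfl (fun i _ => ?_)
      rw [hp]; ring
    rw [h3, le_div_iff₀ htX]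
    linarith
  -- grouping
  have hgroup : ∑ i ∈ I, p i * y i ≤ a * Real.log J - Q := by
    have h1 : ∑ i ∈ I, p i * (entW w X - entW w (T i)) ≤ Real.log J := by
      have h2 : ∑ i ∈ I, p i * (entW w X - entW w (T i)) =
          ∑ i ∈ I, p i * (Real.log (totW w X) - Real.log (totW w (T i))) := by
        have h3 : ∀ i ∈ I, p i * (entW w X - entW w (T i)) =
            p i * (Real.log (totW w X) - Real.log (totW w (T i)))
            - p i * ((∑ x ∈ X, w x * Real.log (w x)) / totW w X)
            + (∑ x ∈ T i, w x * Real.log (w x)) / totW w X := by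
          intro i hi
          have ht := (htT i hi).ne'
          have htX' := htX.ne'
          rw [hp]
          simp only [entW]
          field_simp
          ring
        rw [sum_congr rfl h3, sum_add_distrib, sum_sub_distrib, ← sum_mul, hsump, ← sum_div, hfib]
        ring
      rw [h2]
      have h4 : ∀ i ∈ I, p i * (Real.log (totW w X) - Real.log (totW w (T i))) ≤
          p i * Real.log J + (1 / J - p i) := by
        intro i hi
        have hpi := hp0 i hi
        have e : Real.log (totW w X) - Real.log (totW w (T i)) = - Real.log (p i) := by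
          rw [hp]
          simp only
          rw [Real.log_div (htT i hi).ne' htX.ne']; ring
        rw [e]
        have h5 := Real.log_le_sub_one_of_pos (x := 1 / (J * p i)) (by positivity)
        rw [Real.log_div one_ne_zero (by positivity), Real.log_one,
          Real.log_mul (by positivity) hpi.ne'] at h5
        have h6 : p i * (0 - (Real.log J + Real.log (p i))) ≤ p i * (1 / (J * p i) - 1) :=
          mul_le_mul_of_nonneg_left h5 hpi.le
        have h7 : p i * (1 / (J * p i) - 1) = 1 / J - p i := by field_simp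
        rw [h7] at h6
        linarith
      calc _ ≤ ∑ i ∈ I, (p i * Real.log J + (1 / J - p i)) := sum_le_sum h4
        _ = Real.log J + (I.card * (1 / J) - 1) := by
            rw [sum_add_distrib, ← sum_mul, hsump, sum_sub_distrib, hsump, sum_const, nsmul_eq_mul]
            ring
        _ ≤ Real.log J := by
            have h8 : (I.card : ℝ) ≤ J := by
              have : I.card ≤ (range J).card := card_filter_le _ _
              rw [card_range] at this
              exact_mod_cast this
            have h9 : (I.card : ℝ) * (1 / J) ≤ 1 := by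
              rw [mul_one_div, div_le_one (by positivity)]; exact h8
            linarith
    have h2 : ∑ i ∈ I, p i * y i = a * (∑ i ∈ I, p i * (entW w X - entW w (T i))) - Q := by
      have : ∀ i ∈ I, p i * y i = a * (p i * (entW w X - entW w (T i))) - p i * Q := by
        intro i _; rw [hy]; ring
      rw [sum_congr rfl this, sum_sub_distrib, ← mul_sum, ← sum_mul, hsump]
      ring
    rw [h2]
    nlinarith
  -- error terms
  have hXcard : (0 : ℝ) < X.card := by exact_mod_cast hX.card_pos
  have hHX := ent_le hX hw0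
  have hHX' : Real.log X.card - J * Real.log β ≤ entW w X := by
    have := ent_ge hX (m := 1) (M := β ^ J) one_pos (fun x hx => (hwX x hx).1)
      (fun x hx => (hwX x hx).2)
    rw [Real.log_one, Real.log_pow] at this
    linarith
  have herr : ∀ i ∈ I, p i * Real.exp (y i / W) ≤ p i + p i * y i / W + (B ^ 2 + 8 * C) / W ^ 2 := by
    intro i hi
    have hTc : (0 : ℝ) < (T i).card := by exact_mod_cast (hTne i hi).card_pos
    have hcard : ((T i).card : ℝ) ≤ X.card := by exact_mod_cast card_le_card (hTX i)
    have hHi := ent_le (hTne i hi) (hTw i)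
    have hlogc : Real.log (T i).card ≤ Real.log X.card := Real.log_le_log hTc hcard
    refine err_bound hW2 (hp0 i hi).le (hp1 i hi) ?_ hB0 hC0 ?_
    · have : -(J * Real.log β) ≤ entW w X - entW w (T i) := by linarith
      rw [hB, hy]
      nlinarith
    · intro hyi
      have hHi' : Real.log (T i).card - Real.log β ≤ entW w (T i) := by
        have := ent_ge (hTne i hi) (m := β ^ i) (M := β ^ (i + 1)) (by positivity)
          (fun x hx => (hTb i x hx).1) (fun x hx => (hTb i x hx).2)
        rw [Real.log_pow, Real.log_pow] at this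
        push_cast at this
        linarith
      have hd : 0 < entW w X - entW w (T i) := by
        by_contra hcon
        push Not at hcon
        have : y i ≤ 0 := by
          rw [hy]
          nlinarith
        linarith
      have h1 : y i ≤ Real.log X.card - Real.log (T i).card + Real.log β := by
        have : y i ≤ entW w X - entW w (T i) := by
          rw [hy]
          nlinarith
        linarith
      have h2 : Real.exp (y i) ≤ X.card / (T i).card * β := by
        calc _ ≤ Real.exp (Real.log X.card - Real.log (T i).card + Real.log β) :=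
              Real.exp_le_exp.mpr h1
          _ = _ := by
              rw [Real.exp_add, Real.exp_sub, Real.exp_log hXcard, Real.exp_log hTc,
                Real.exp_log hβ0]
      have h3 : totW w (T i) ≤ (T i).card * β ^ J := by
        unfold totW
        have := sum_le_card_nsmul (T i) w (β ^ J) (fun x hx => (hwX x (hTX i hx)).2)
        rwa [nsmul_eq_mul] at this
      have h4 : (X.card : ℝ) ≤ totW w X := by
        unfold totW
        have := card_nsmul_le_sum X w 1 (fun x hx => (hwX x hx).1)
        rw [nsmul_eq_mul, mul_one] at this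
        exact this
      have h5 : p i ≤ (T i).card * β ^ J / X.card := by
        rw [hp]
        exact div_le_div₀ (by positivity) h3 hXcard h4
      calc p i * Real.exp (y i) ≤ ((T i).card * β ^ J / X.card) * (X.card / (T i).card * β) :=
            mul_le_mul h5 h2 (Real.exp_pos _).le (by positivity)
        _ = C := by
            rw [hC, pow_succ]; field_simp
  have hfinal : ∑ i ∈ I, p i * Real.exp (y i / W) < 1 := by
    calc ∑ i ∈ I, p i * Real.exp (y i / W)
        ≤ ∑ i ∈ I, (p i + p i * y i / W + (B ^ 2 + 8 * C) / W ^ 2) := sum_le_sum herr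
      _ = 1 + (∑ i ∈ I, p i * y i) / W + I.card * ((B ^ 2 + 8 * C) / W ^ 2) := by
          rw [sum_add_distrib, sum_add_distrib, hsump, ← sum_div, sum_const, nsmul_eq_mul]
      _ < 1 := by
          have h8 : (I.card : ℝ) ≤ J := by
            have : I.card ≤ (range J).card := card_filter_le _ _
            rw [card_range] at this
            exact_mod_cast this
          have h9 : (I.card : ℝ) * ((B ^ 2 + 8 * C) / W ^ 2) ≤ 1 / W := by
            calc _ ≤ (J : ℝ) * ((B ^ 2 + 8 * C) / W ^ 2) :=
                  mul_le_mul_of_nonneg_right h8 (by positivity)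
              _ = (J * (B ^ 2 + 8 * C)) / W ^ 2 := by ring
              _ ≤ W / W ^ 2 := div_le_div_of_nonneg_right hWW (by positivity)
              _ = 1 / W := by field_simp
          have h10 : (∑ i ∈ I, p i * y i) / W < (-1) / W := by
            apply div_lt_div_of_pos_right _ hW0
            linarith
          have h11 : (-1 : ℝ) / W = -(1 / W) := by ring
          linarith
  linarith

end Pool.Agent.H56.Ramsey
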