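import Pool.Agent.H92.RamseyK
import Pool.Agent.H92.RamseyL
import Pool.Agent.H92.RamseyT
import Pool.Agent.H56.Ramsey.Split
import Pool.Agent.H56.Ramsey.Family

/-!
Assembly (MP_28724c_co): `T1` for the pointwise certificate.
-/

open Finset Pool.Agent.H92

namespace Pool.Agent.H56.Ramsey

theorem t1I : T1I := t1I_of oneStepW levelSplit tiltBound

end Pool.Agent.H56.Ramsey
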