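import Pool.Agent.H56.Ramsey.TopT
import Pool.Agent.H56.Ramsey.Final

/-!
Assembly (MP_28724c_co): `T1` for the pointwise certificate and the diagonal bound `3.455 ^ k`.
-/

open Finset Pool.Agent.H92

namespace Pool.Agent.H56.Ramsey

theorem eventually_le : ∀ᶠ k : ℕ in Filter.atTop, (ramseyNumber k : ℝ) ≤ (3.455 : ℝ) ^ k :=
  eventually_le_of_t1 t1I

end Pool.Agent.H56.Ramsey
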