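import Pool.Agent.H56.Ramsey.Iv
import Pool.Agent.H92.RamseyJ

/-!
A kernel-checkable certificate for `CertI`: two pieces, the first one trivial.
-/

open Finset Pool.Agent.H92

namespace Pool.Agent.H56.Ramsey

/-- weighted arithmetic-geometric mean inequality in the form needed for certificates -/
theorem rpow_le_lin {a s r : ℝ} (ha : 0 < a) (ha1 : a ≤ 1) (hr : 0 ≤ r) :
    r ^ (1 - a) ≤ a * Real.exp (-((1 - a) * s)) + (1 - a) * Real.exp (a * s) * r := by
  have h := Real.geom_mean_le_arith_mean2_weighted (w₁ := 1 - a) (w₂ := a)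
    (p₁ := Real.exp (a * s) * r) (p₂ := Real.exp (-((1 - a) * s))) (by linarith) ha.le
    (by positivity) (Real.exp_pos _).le (by ring)
  rw [Real.mul_rpow (Real.exp_pos _).le hr, ← Real.exp_mul, ← Real.exp_mul] at h
  have e : Real.exp (a * s * (1 - a)) * r ^ (1 - a) * Real.exp (-((1 - a) * s) * a)
      = r ^ (1 - a) := by
    rw [mul_right_comm, ← Real.exp_add]
    have : a * s * (1 - a) + -((1 - a) * s) * a = 0 := by ring
    rw [this, Real.exp_zero, one_mul]
  rw [e] at h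
  linarith

/-- two pieces suffice -/
theorem certI_two {a q L M t τ1 τ2 τ3 s1 s2 : ℝ} (ha : 0 < a) (ha1 : a ≤ 1)
    (ht0 : 0 ≤ t) (ht1 : t ≤ 1) (hw : 0 ≤ τ2 + τ3)
    (hM : 0 < M - (M + a) * t) (hMa : 0 ≤ M)
    (hA0 : 0 ≤ cA τ1 τ2 τ3 t) (hA1 : 0 ≤ cA τ1 τ2 τ3 1)
    (hD0 : 0 < cD q L M τ1 τ2 τ3 (a * Real.exp (-((1 - a) * s1))) ((1 - a) * Real.exp (a * s1))
      (a * Real.exp (-((1 - a) * s2))) ((1 - a) * Real.exp (a * s2)) t)
    (hD1 : 0 < cD q L M τ1 τ2 τ3 (a * Real.exp (-((1 - a) * s1))) ((1 - a) * Real.exp (a * s1))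
      (a * Real.exp (-((1 - a) * s2))) ((1 - a) * Real.exp (a * s2)) 1) :
    CertI a q L M := by
  set X1 := cD q L M τ1 τ2 τ3 (a * Real.exp (-((1 - a) * s1))) ((1 - a) * Real.exp (a * s1))
      (a * Real.exp (-((1 - a) * s2))) ((1 - a) * Real.exp (a * s2)) t with hX1
  set X2 := cD q L M τ1 τ2 τ3 (a * Real.exp (-((1 - a) * s1))) ((1 - a) * Real.exp (a * s1))
      (a * Real.exp (-((1 - a) * s2))) ((1 - a) * Real.exp (a * s2)) 1 with hX2
  have hpos : 0 < min (M - (M + a) * t) (min X1 X2) := lt_min hM (lt_min hD0 hD1)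
  have hpos2 : min (M - (M + a) * t) (min X1 X2) ≤ M := by
    refine (min_le_left _ _).trans ?_
    have : 0 ≤ (M + a) * t := by positivity
    linarith
  refine ⟨2, min (M - (M + a) * t) (min X1 X2),
    fun j => if j = 0 then 0 else if j = 1 then t else 1,
    fun j => if j = 0 then 0 else τ1, fun j => if j = 0 then -M else τ2,
    fun j => if j = 0 then M else τ3,
    fun j => if j = 0 then a else a * Real.exp (-((1 - a) * s1)),
    fun j => if j = 0 then 1 - a else (1 - a) * Real.exp (a * s1),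
    fun j => if j = 0 then a else a * Real.exp (-((1 - a) * s2)),
    fun j => if j = 0 then 1 - a else (1 - a) * Real.exp (a * s2),
    by simp, by simp, hpos, ?_, ?_, ?_, ?_, ?_, ?_, ?_, ?_, ?_⟩
  · intro j hj
    interval_cases j <;> simp [ht0, ht1]
  · intro j hj
    interval_cases j <;> simp [hw]
  · intro j hj
    have h1 : 0 ≤ 1 - a := by linarith
    interval_cases j
    · simp [ha.le, h1]
    · simp only [one_ne_zero, if_false]
      refine ⟨by positivity, by positivity, by positivity, by positivity⟩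
  · intro j hj r hr hr1
    interval_cases j
    · have := rpow_le_lin (s := 0) ha ha1 hr
      simpa using this
    · simp only [one_ne_zero, if_false]
      exact rpow_le_lin ha ha1 hr
  · intro j hj r hr hr1
    interval_cases j
    · have := rpow_le_lin (s := 0) ha ha1 hr
      simpa using this
    · simp only [one_ne_zero, if_false]
      exact rpow_le_lin ha ha1 hr
  · intro j hj
    interval_cases j
    · simp [cA]
    · simpa using hA0
  · intro j hj
    interval_cases j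
    · simp [cA]
    · simpa using hA1
  · intro j hj
    interval_cases j
    · simp only [cD, if_true]
      simp only [neg_add_cancel, Real.exp_zero, sub_self, zero_mul, mul_zero, zero_add]
      refine hpos2.trans (le_of_eq ?_)
      ring
    · simp only [one_ne_zero, if_false, if_true]
      rw [← hX1]
      exact (min_le_right _ _).trans (min_le_left _ _)
  · intro j hj
    interval_cases j
    · simp only [cD, if_true]
      simp only [neg_add_cancel, Real.exp_zero, sub_self, zero_mul, mul_zero, zero_add,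
        one_ne_zero, if_false]
      refine (min_le_left _ _).trans (le_of_eq ?_)
      simp
      ring
    · simp only [one_ne_zero, if_false]
      have : ((1:ℕ) + 1 = 0) = False := by simp
      simp only [this, if_false]
      have h2 : ((1:ℕ) + 1 = 1) = False := by simp
      simp only [h2, if_false]
      rw [← hX2]
      exact (min_le_right _ _).trans (min_le_right _ _)

open Iv

/-- interval version of `cA` -/
def cAiv (E τ1 τ2 τ3 r : Iv) : Iv :=
  sub (add (mul (mul (sub E (pt SC)) (add (pt SC) τ1)) r)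
    (mul (mul E (sub (pt SC) τ2)) (sub (pt SC) r))) (mul (add (pt SC) τ3) (sub (pt SC) r))

/-- interval version of `cD` -/
def cDiv (E q τ1 τ2 τ3 XA XB YA YB r : Iv) : Iv :=
  sub (add (add (mul (sub E (pt SC)) (sub (mul (mul (add (pt SC) τ1) r) q) (add XA (mul XB r))))
    (mul (mul (mul E (sub (pt SC) τ2)) (sub (pt SC) r)) q))
    (mul (mul (add (pt SC) τ3) (sub (pt SC) r)) (sub (pt SC) q)))
    (add YA (mul YB (sub (pt SC) r)))

theorem mem_cAiv {E τ1 τ2 τ3 r : Iv} {x1 x2 x3 y : ℝ} (hE : Mem (Real.exp (x2 + x3)) E)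
    (h1 : Mem x1 τ1) (h2 : Mem x2 τ2) (h3 : Mem x3 τ3) (hr : Mem y r) :
    Mem (cA x1 x2 x3 y) (cAiv E τ1 τ2 τ3 r) := by
  have o := mem_one
  exact ((((hE.sub o).mul (o.add h1)).mul hr).add ((hE.mul (o.sub h2)).mul (o.sub hr))).sub
    ((o.add h3).mul (o.sub hr))

theorem mem_cDiv {E q τ1 τ2 τ3 XA XB YA YB r : Iv} {p L M x1 x2 x3 A1 B1 A2 B2 y : ℝ}
    (hE : Mem (Real.exp (x2 + x3)) E) (hq : Mem p q)
    (h1 : Mem x1 τ1) (h2 : Mem x2 τ2) (h3 : Mem x3 τ3) (hr : Mem y r)
    (hXA : Mem (Real.exp (x1 - L) * A1) XA) (hXB : Mem (Real.exp (x1 - L) * B1) XB)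
    (hYA : Mem (Real.exp (x3 - M) * A2) YA) (hYB : Mem (Real.exp (x3 - M) * B2) YB) :
    Mem (cD p L M x1 x2 x3 A1 B1 A2 B2 y) (cDiv E q τ1 τ2 τ3 XA XB YA YB r) := by
  have o := mem_one
  have h := ((((hE.sub o).mul ((((o.add h1).mul hr).mul hq).sub (hXA.add (hXB.mul hr)))).add
    (((hE.mul (o.sub h2)).mul (o.sub hr)).mul hq)).add
    (((o.add h3).mul (o.sub hr)).mul (o.sub hq))).sub (hYA.add (hYB.mul (o.sub hr)))
  have e : cD p L M x1 x2 x3 A1 B1 A2 B2 y =
      (Real.exp (x2 + x3) - 1) * ((1 + x1) * y * p - (Real.exp (x1 - L) * A1 +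
        Real.exp (x1 - L) * B1 * y)) + Real.exp (x2 + x3) * (1 - x2) * (1 - y) * p +
        (1 + x3) * (1 - y) * (1 - p) -
        (Real.exp (x3 - M) * A2 + Real.exp (x3 - M) * B2 * (1 - y)) := by
    unfold cD
    ring
  rw [e]
  exact h

/-- argument intervals -/
def argA (τ a s : ℤ) : Iv := sub (pt τ) (mul (sub (pt SC) (pt a)) (pt s))

/-- argument intervals -/
def argB (τ a s : ℤ) : Iv := add (pt τ) (mul (pt a) (pt s))

/-- The certificate check. -/
def certChk (a q L M t τ1 τ2 τ3 s1 s2 : ℤ) : Bool :=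
  let E := exp (pt (τ2 + τ3))
  let XA := mul (exp (argA (τ1 - L) a s1)) (pt a)
  let XB := mul (exp (argB (τ1 - L) a s1)) (sub (pt SC) (pt a))
  let YA := mul (exp (argA (τ3 - M) a s2)) (pt a)
  let YB := mul (exp (argB (τ3 - M) a s2)) (sub (pt SC) (pt a))
  decide (0 < a) && decide (a ≤ SC) && decide (0 ≤ M) &&
  decide (0 ≤ t) && decide (t ≤ SC) && decide (0 ≤ τ2 + τ3) &&
  decide (0 < M * SC - (M + a) * t) &&
  ok (pt (τ2 + τ3)) && ok (argA (τ1 - L) a s1) && ok (argB (τ1 - L) a s1) &&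
  ok (argA (τ3 - M) a s2) && ok (argB (τ3 - M) a s2) &&
  decide (0 ≤ (cAiv E (pt τ1) (pt τ2) (pt τ3) (pt t)).lo) &&
  decide (0 ≤ (cAiv E (pt τ1) (pt τ2) (pt τ3) (pt SC)).lo) &&
  decide (0 < (cDiv E (pt q) (pt τ1) (pt τ2) (pt τ3) XA XB YA YB (pt t)).lo) &&
  decide (0 < (cDiv E (pt q) (pt τ1) (pt τ2) (pt τ3) XA XB YA YB (pt SC)).lo)

/-- the real number represented by a scaled integer -/
noncomputable def R (p : ℤ) : ℝ := (p : ℝ) / SC

theorem mem_R (p : ℤ) : Mem (R p) (pt p) := mem_pt p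

theorem R_SC : R SC = 1 := div_self SC_posR.ne'

theorem R_pos {p : ℤ} (h : 0 < p) : 0 < R p := by
  have := SC_posR
  have h' : (0:ℝ) < p := by exact_mod_cast h
  unfold R; positivity

theorem R_nonneg {p : ℤ} (h : 0 ≤ p) : 0 ≤ R p := by
  have := SC_posR
  have h' : (0:ℝ) ≤ p := by exact_mod_cast h
  unfold R; positivity

theorem R_le {p p' : ℤ} (h : p ≤ p') : R p ≤ R p' := by
  have h' : (p:ℝ) ≤ p' := by exact_mod_cast h
  unfold R
  exact div_le_div_of_nonneg_right h' SC_posR.le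

theorem R_lt {p p' : ℤ} (h : p < p') : R p < R p' := by
  have h' : (p:ℝ) < p' := by exact_mod_cast h
  unfold R
  exact div_lt_div_of_pos_right h' SC_posR

theorem R_le_one {p : ℤ} (h : p ≤ SC) : R p ≤ 1 := by rw [← R_SC]; exact R_le h

theorem R_add (p p' : ℤ) : R (p + p') = R p + R p' := by unfold R; push_cast; ring

theorem R_sub (p p' : ℤ) : R (p - p') = R p - R p' := by unfold R; push_cast; ring

theorem R_mul_SC (p : ℤ) : (p : ℝ) = R p * SC := by
  unfold R; rw [div_mul_cancel₀ _ SC_posR.ne']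

theorem certChk_sound {a q L M t τ1 τ2 τ3 s1 s2 : ℤ}
    (h : certChk a q L M t τ1 τ2 τ3 s1 s2 = true) : CertI (R a) (R q) (R L) (R M) := by
  unfold certChk at h
  simp only [Bool.and_eq_true, decide_eq_true_eq] at h
  obtain ⟨⟨⟨⟨⟨⟨⟨⟨⟨⟨⟨⟨⟨⟨⟨ha, ha1⟩, hM⟩, ht⟩, ht1⟩, hw⟩, hMt⟩, k1⟩, k2⟩, k3⟩, k4⟩, k5⟩, c1⟩, c2⟩, d1⟩,
    d2⟩ := h
  have o := mem_one
  have hE : Mem (Real.exp (R τ2 + R τ3)) (Iv.exp (pt (τ2 + τ3))) := by
    rw [← R_add]
    exact (mem_R _).exp k1
  have hXA : Mem (Real.exp (R τ1 - R L) * (R a * Real.exp (-((1 - R a) * R s1))))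
      (mul (Iv.exp (argA (τ1 - L) a s1)) (pt a)) := by
    have h1 : Mem (R (τ1 - L) - (1 - R a) * R s1) (argA (τ1 - L) a s1) :=
      (mem_R _).sub ((o.sub (mem_R a)).mul (mem_R s1))
    have h2 := (h1.exp k2).mul (mem_R a)
    rw [R_sub, sub_eq_add_neg, Real.exp_add] at h2
    convert h2 using 1
    ring
  have hXB : Mem (Real.exp (R τ1 - R L) * ((1 - R a) * Real.exp (R a * R s1)))
      (mul (Iv.exp (argB (τ1 - L) a s1)) (sub (pt SC) (pt a))) := by
    have h1 : Mem (R (τ1 - L) + R a * R s1) (argB (τ1 - L) a s1) :=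
      (mem_R _).add ((mem_R a).mul (mem_R s1))
    have h2 := (h1.exp k3).mul (o.sub (mem_R a))
    rw [R_sub, Real.exp_add] at h2
    convert h2 using 1
    ring
  have hYA : Mem (Real.exp (R τ3 - R M) * (R a * Real.exp (-((1 - R a) * R s2))))
      (mul (Iv.exp (argA (τ3 - M) a s2)) (pt a)) := by
    have h1 : Mem (R (τ3 - M) - (1 - R a) * R s2) (argA (τ3 - M) a s2) :=
      (mem_R _).sub ((o.sub (mem_R a)).mul (mem_R s2))
    have h2 := (h1.exp k4).mul (mem_R a)
    rw [R_sub, sub_eq_add_neg, Real.exp_add] at h2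
    convert h2 using 1
    ring
  have hYB : Mem (Real.exp (R τ3 - R M) * ((1 - R a) * Real.exp (R a * R s2)))
      (mul (Iv.exp (argB (τ3 - M) a s2)) (sub (pt SC) (pt a))) := by
    have h1 : Mem (R (τ3 - M) + R a * R s2) (argB (τ3 - M) a s2) :=
      (mem_R _).add ((mem_R a).mul (mem_R s2))
    have h2 := (h1.exp k5).mul (o.sub (mem_R a))
    rw [R_sub, Real.exp_add] at h2
    convert h2 using 1
    ring
  refine certI_two (a := R a) (q := R q) (L := R L) (M := R M) (t := R t) (τ1 := R τ1)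
    (τ2 := R τ2) (τ3 := R τ3) (s1 := R s1) (s2 := R s2) (R_pos ha) (R_le_one ha1) (R_nonneg ht)
    (R_le_one ht1) ?_ ?_ (R_nonneg hM) ?_ ?_ ?_ ?_
  · rw [← R_add]; exact R_nonneg hw
  · have h1 : (0:ℝ) < (M : ℝ) * SC - (M + a) * t := by exact_mod_cast hMt
    have hS := SC_posR
    rw [R_mul_SC M, R_mul_SC a, R_mul_SC t] at h1
    have h2 : R M * SC * SC - (R M * SC + R a * SC) * (R t * SC) =
      (R M - (R M + R a) * R t) * (SC * SC) := by ring
    rw [h2] at h1
    exact pos_of_mul_pos_left h1 (by positivity)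
  · exact (mem_cAiv hE (mem_R τ1) (mem_R τ2) (mem_R τ3) (mem_R t)).nonneg_of c1
  · exact (mem_cAiv hE (mem_R τ1) (mem_R τ2) (mem_R τ3) mem_one).nonneg_of c2
  · exact (mem_cDiv hE (mem_R q) (mem_R τ1) (mem_R τ2) (mem_R τ3) (mem_R t) hXA hXB hYA
      hYB).pos_of d1
  · exact (mem_cDiv hE (mem_R q) (mem_R τ1) (mem_R τ2) (mem_R τ3) mem_one hXA hXB hYA
      hYB).pos_of d2

end Pool.Agent.H56.Ramsey
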