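import Mathlib

/-!
Fixed point interval arithmetic over the integers, designed to be evaluated by the kernel.
A real number `x` is represented by integers `lo ≤ x * 10^18 ≤ hi`.
-/

open Finset

namespace Pool.Agent.H56.Ramsey

/-- the scale `10^18` -/
def SC : ℤ := 1000000000000000000

theorem SC_pos : (0 : ℤ) < SC := by decide

theorem SC_posR : (0 : ℝ) < (SC : ℝ) := by exact_mod_cast SC_pos

/-- an interval with integer end points -/
structure Iv where
  /-- lower end -/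
  lo : ℤ
  /-- upper end -/
  hi : ℤ

namespace Iv

/-- `x` lies in the (scaled) interval -/
def Mem (x : ℝ) (I : Iv) : Prop := (I.lo : ℝ) ≤ x * SC ∧ x * SC ≤ (I.hi : ℝ)

/-- a point -/
def pt (p : ℤ) : Iv := ⟨p, p⟩

/-- sum -/
def add (a b : Iv) : Iv := ⟨a.lo + b.lo, a.hi + b.hi⟩

/-- difference -/
def sub (a b : Iv) : Iv := ⟨a.lo - b.hi, a.hi - b.lo⟩

/-- minimum of two integers -/
def mn (a b : ℤ) : ℤ := bif decide (a ≤ b) then a else b

/-- maximum of two integers -/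
def mx (a b : ℤ) : ℤ := bif decide (a ≤ b) then b else a

/-- product, general case -/
def mulg (a b : Iv) : Iv :=
  ⟨mn (mn (a.lo * b.lo) (a.lo * b.hi)) (mn (a.hi * b.lo) (a.hi * b.hi)) / SC,
    (mx (mx (a.lo * b.lo) (a.lo * b.hi)) (mx (a.hi * b.lo) (a.hi * b.hi)) + (SC - 1)) / SC⟩

/-- product -/
def mul (a b : Iv) : Iv :=
  bif decide (0 ≤ a.lo) && decide (0 ≤ b.lo) then
    ⟨a.lo * b.lo / SC, (a.hi * b.hi + (SC - 1)) / SC⟩
  else mulg a b

/-- division by a positive integer -/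
def dv (a : Iv) (k : ℤ) : Iv := ⟨a.lo / k, (a.hi + (k - 1)) / k⟩

theorem mn_eq (a b : ℤ) : mn a b = min a b := by
  unfold mn
  by_cases h : a ≤ b
  · simp [h]
  · rw [min_eq_right (by omega)]; simp [h]

theorem mx_eq (a b : ℤ) : mx a b = max a b := by
  unfold mx
  by_cases h : a ≤ b
  · simp [h]
  · rw [max_eq_left (by omega)]; simp [h]

theorem mem_pt (p : ℤ) : Mem ((p : ℝ) / SC) (pt p) := by
  have := SC_posR
  unfold Mem pt
  rw [div_mul_cancel₀ _ this.ne']
  exact ⟨le_rfl, le_rfl⟩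

theorem mem_one : Mem 1 (pt SC) := by
  have h := mem_pt SC
  rwa [div_self SC_posR.ne'] at h

theorem Mem.add {x y : ℝ} {a b : Iv} (hx : Mem x a) (hy : Mem y b) : Mem (x + y) (add a b) := by
  unfold Mem Iv.add at *
  push_cast
  constructor <;> nlinarith [hx.1, hx.2, hy.1, hy.2]

theorem Mem.sub {x y : ℝ} {a b : Iv} (hx : Mem x a) (hy : Mem y b) : Mem (x - y) (sub a b) := by
  unfold Mem Iv.sub at *
  push_cast
  constructor <;> nlinarith [hx.1, hx.2, hy.1, hy.2]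

theorem aux_mul_min {l x h c : ℝ} (h1 : l ≤ x) (h2 : x ≤ h) :
    min (l * c) (h * c) ≤ x * c ∧ x * c ≤ max (l * c) (h * c) := by
  rcases le_total 0 c with hc | hc
  · exact ⟨(min_le_left _ _).trans (mul_le_mul_of_nonneg_right h1 hc),
      (mul_le_mul_of_nonneg_right h2 hc).trans (le_max_right _ _)⟩
  · exact ⟨(min_le_right _ _).trans (mul_le_mul_of_nonpos_right h2 hc),
      (mul_le_mul_of_nonpos_right h1 hc).trans (le_max_left _ _)⟩

theorem floor_le (m k : ℤ) (hk : 0 < k) : ((m / k : ℤ) : ℝ) ≤ (m : ℝ) / k := by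
  have h1 : m / k * k ≤ m := Int.ediv_mul_le m hk.ne'
  have hk' : (0 : ℝ) < k := by exact_mod_cast hk
  rw [le_div_iff₀ hk']
  exact_mod_cast h1

theorem le_ceil (m k : ℤ) (hk : 0 < k) : (m : ℝ) / k ≤ (((m + (k - 1)) / k : ℤ) : ℝ) := by
  have hk' : (0 : ℝ) < k := by exact_mod_cast hk
  rw [div_le_iff₀ hk']
  have h1 : m + (k - 1) < ((m + (k - 1)) / k + 1) * k := by
    have := Int.lt_ediv_add_one_mul_self (m + (k - 1)) hk
    exact this
  have h2 : m ≤ (m + (k - 1)) / k * k := by nlinarith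
  exact_mod_cast h2

theorem Mem.mulg {x y : ℝ} {a b : Iv} (hx : Mem x a) (hy : Mem y b) :
    Mem (x * y) (mulg a b) := by
  have hS := SC_posR
  obtain ⟨hx1, hx2⟩ := hx
  obtain ⟨hy1, hy2⟩ := hy
  have e : x * y * SC = ((x * SC) * (y * SC)) / SC := by field_simp
  have A1 := aux_mul_min (c := y * SC) hx1 hx2
  have A2 := aux_mul_min (c := (a.lo : ℝ)) hy1 hy2
  have A3 := aux_mul_min (c := (a.hi : ℝ)) hy1 hy2
  have hmin : (((min (min (a.lo * b.lo) (a.lo * b.hi)) (min (a.hi * b.lo) (a.hi * b.hi)) : ℤ)) : ℝ)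
      ≤ (x * SC) * (y * SC) := by
    push_cast
    refine le_trans ?_ A1.1
    refine min_le_min ?_ ?_
    · have := A2.1
      rw [mul_comm (a.lo : ℝ) (b.lo : ℝ), mul_comm (a.lo : ℝ) (b.hi : ℝ),
        mul_comm (a.lo : ℝ) (y * SC)]
      exact this
    · have := A3.1
      rw [mul_comm (a.hi : ℝ) (b.lo : ℝ), mul_comm (a.hi : ℝ) (b.hi : ℝ),
        mul_comm (a.hi : ℝ) (y * SC)]
      exact this
  have hmax : (x * SC) * (y * SC) ≤
      (((max (max (a.lo * b.lo) (a.lo * b.hi)) (max (a.hi * b.lo) (a.hi * b.hi)) : ℤ)) : ℝ) := by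
    push_cast
    refine le_trans A1.2 ?_
    refine max_le_max ?_ ?_
    · have := A2.2
      rw [mul_comm (a.lo : ℝ) (b.lo : ℝ), mul_comm (a.lo : ℝ) (b.hi : ℝ),
        mul_comm (a.lo : ℝ) (y * SC)]
      exact this
    · have := A3.2
      rw [mul_comm (a.hi : ℝ) (b.lo : ℝ), mul_comm (a.hi : ℝ) (b.hi : ℝ),
        mul_comm (a.hi : ℝ) (y * SC)]
      exact this
  unfold Mem Iv.mulg
  simp only [mn_eq, mx_eq]
  rw [e]
  constructor
  · refine (floor_le _ _ SC_pos).trans ?_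
    exact div_le_div_of_nonneg_right hmin hS.le
  · refine le_trans ?_ (le_ceil _ _ SC_pos)
    exact div_le_div_of_nonneg_right hmax hS.le

theorem Mem.mul {x y : ℝ} {a b : Iv} (hx : Mem x a) (hy : Mem y b) : Mem (x * y) (mul a b) := by
  unfold Iv.mul
  by_cases h : 0 ≤ a.lo ∧ 0 ≤ b.lo
  · have hd : (decide (0 ≤ a.lo) && decide (0 ≤ b.lo)) = true := by simp [h]
    rw [hd, cond_true]
    have hS := SC_posR
    obtain ⟨hx1, hx2⟩ := hx
    obtain ⟨hy1, hy2⟩ := hy
    have ha : (0 : ℝ) ≤ a.lo := by exact_mod_cast h.1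
    have hb : (0 : ℝ) ≤ b.lo := by exact_mod_cast h.2
    have e : x * y * SC = ((x * SC) * (y * SC)) / SC := by field_simp
    unfold Mem
    rw [e]
    constructor
    · refine (floor_le _ _ SC_pos).trans ?_
      push_cast
      exact div_le_div_of_nonneg_right (mul_le_mul hx1 hy1 hb (ha.trans hx1)) hS.le
    · refine le_trans ?_ (le_ceil _ _ SC_pos)
      push_cast
      exact div_le_div_of_nonneg_right (mul_le_mul hx2 hy2 (hb.trans hy1)
        (ha.trans (hx1.trans hx2))) hS.le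
  · have hd : (decide (0 ≤ a.lo) && decide (0 ≤ b.lo)) = false := by
      rw [Bool.and_eq_false_iff, decide_eq_false_iff_not, decide_eq_false_iff_not]
      tauto
    rw [hd, cond_false]
    exact hx.mulg hy

theorem Mem.dv {x : ℝ} {a : Iv} (hx : Mem x a) {k : ℤ} (hk : 0 < k) : Mem (x / k) (dv a k) := by
  have hk' : (0 : ℝ) < k := by exact_mod_cast hk
  unfold Mem Iv.dv at *
  have e : x / k * SC = x * SC / k := by ring
  rw [e]
  constructor
  · exact (floor_le _ _ hk).trans (div_le_div_of_nonneg_right hx.1 hk'.le)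
  · exact le_trans (div_le_div_of_nonneg_right hx.2 hk'.le) (le_ceil _ _ hk)

/-- Taylor polynomial of degree six, enlarged by the remainder -/
def expCore (y : Iv) : Iv :=
  let o := pt SC
  let p := add o (dv y 6)
  let p := add o (mul (dv y 5) p)
  let p := add o (mul (dv y 4) p)
  let p := add o (mul (dv y 3) p)
  let p := add o (mul (dv y 2) p)
  let p := add o (mul y p)
  ⟨p.lo - 10000, p.hi + 10000⟩

theorem Mem.expCore {y : ℝ} {I : Iv} (hy : Mem y I) (hb : |y| ≤ 1 / 32) :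
    Mem (Real.exp y) (expCore I) := by
  have h1 := mem_one
  have k2 := hy.dv (k := 2) (by norm_num)
  have k3 := hy.dv (k := 3) (by norm_num)
  have k4 := hy.dv (k := 4) (by norm_num)
  have k5 := hy.dv (k := 5) (by norm_num)
  have k6 := hy.dv (k := 6) (by norm_num)
  have hp := h1.add (hy.mul (h1.add (k2.mul (h1.add (k3.mul (h1.add (k4.mul (h1.add (k5.mul
    (h1.add k6))))))))))
  have hP : (1 + y * (1 + y / (2:ℤ) * (1 + y / (3:ℤ) * (1 + y / (4:ℤ) * (1 + y / (5:ℤ) *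
      (1 + y / (6:ℤ))))))) = ∑ m ∈ range 7, y ^ m / (m.factorial : ℝ) := by
    simp only [sum_range_succ, range_zero, sum_empty, Nat.factorial]
    push_cast
    ring
  rw [hP] at hp
  have hb1 : |y| ≤ 1 := hb.trans (by norm_num)
  have hE := Real.exp_bound hb1 (n := 7) (by norm_num)
  have hr : |y| ^ 7 * ((Nat.succ 7 : ℕ) / ((Nat.factorial 7 : ℕ) * (7 : ℕ)) : ℝ) ≤ 1 / 10 ^ 14 := by
    have h7 : |y| ^ 7 ≤ (1 / 32) ^ 7 := pow_le_pow_left₀ (abs_nonneg _) hb 7
    have h8 : ((Nat.succ 7 : ℕ) / ((Nat.factorial 7 : ℕ) * (7 : ℕ)) : ℝ) = 8 / 35280 := by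
      simp [Nat.factorial]; norm_num
    rw [h8]
    calc |y| ^ 7 * (8 / 35280 : ℝ) ≤ (1 / 32) ^ 7 * (8 / 35280) := by gcongr
      _ ≤ 1 / 10 ^ 14 := by norm_num
  have hE2 := (hE.trans hr)
  rw [abs_le] at hE2
  have hS : (SC : ℝ) = 10 ^ 18 := by unfold SC; norm_num
  obtain ⟨q1, q2⟩ := hp
  unfold Mem
  have e1 : ((Iv.expCore I).lo : ℝ) = (((Iv.pt SC).add (I.mul ((Iv.pt SC).add ((I.dv 2).mul
    ((Iv.pt SC).add ((I.dv 3).mul ((Iv.pt SC).add ((I.dv 4).mul ((Iv.pt SC).add ((I.dv 5).mul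
    ((Iv.pt SC).add (I.dv 6)))))))))))).lo : ℝ) - 10000 := by
    unfold Iv.expCore
    push_cast
    rfl
  have e2 : ((Iv.expCore I).hi : ℝ) = (((Iv.pt SC).add (I.mul ((Iv.pt SC).add ((I.dv 2).mul
    ((Iv.pt SC).add ((I.dv 3).mul ((Iv.pt SC).add ((I.dv 4).mul ((Iv.pt SC).add ((I.dv 5).mul
    ((Iv.pt SC).add (I.dv 6)))))))))))).hi : ℝ) + 10000 := by
    unfold Iv.expCore
    push_cast
    rfl
  rw [e1, e2]
  rw [hS] at q1 q2 ⊢
  constructor
  · nlinarith [hE2.1, hE2.2]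
  · nlinarith [hE2.1, hE2.2]

/-- square -/
def sq (a : Iv) : Iv := mul a a

/-- exponential of an interval inside `[-8, 8]` -/
def exp (I : Iv) : Iv :=
  sq (sq (sq (sq (sq (sq (sq (sq (expCore (dv I 256)))))))))

/-- range check for `exp` -/
def ok (I : Iv) : Bool := decide (-8000000000000000000 ≤ I.lo) && decide (I.hi ≤ 8000000000000000000)

theorem Mem.sq {x : ℝ} {a : Iv} (hx : Mem x a) : Mem (x ^ 2) (sq a) := by
  rw [pow_two]; exact hx.mul hx

theorem Mem.exp {x : ℝ} {I : Iv} (hx : Mem x I) (hok : ok I = true) : Mem (Real.exp x) (exp I) := by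
  unfold ok at hok
  rw [Bool.and_eq_true, decide_eq_true_eq, decide_eq_true_eq] at hok
  have hS : (SC : ℝ) = 10 ^ 18 := by unfold SC; norm_num
  have hb : |x / (256 : ℤ)| ≤ 1 / 32 := by
    have h1 : (-8000000000000000000 : ℝ) ≤ I.lo := by exact_mod_cast hok.1
    have h2 : (I.hi : ℝ) ≤ 8000000000000000000 := by exact_mod_cast hok.2
    have h3 := hx.1
    have h4 := hx.2
    rw [hS] at h3 h4
    have h5 : -8 ≤ x := by linarith
    have h6 : x ≤ 8 := by linarith
    push_cast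
    rw [abs_le]
    constructor <;> linarith
  have h := (hx.dv (k := 256) (by norm_num)).expCore hb
  have h2 := h.sq.sq.sq.sq.sq.sq.sq.sq
  have e : (((((((Real.exp (x / (256 : ℤ)) ^ 2) ^ 2) ^ 2) ^ 2) ^ 2) ^ 2) ^ 2) ^ 2 = Real.exp x := by
    rw [← pow_mul, ← pow_mul, ← pow_mul, ← pow_mul, ← pow_mul, ← pow_mul, ← pow_mul,
      ← Real.exp_nat_mul]
    congr 1
    push_cast
    ring
  rw [e] at h2
  exact h2

theorem Mem.nonneg_of {x : ℝ} {a : Iv} (hx : Mem x a) (h : 0 ≤ a.lo) : 0 ≤ x := by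
  have hS := SC_posR
  have h1 : (0 : ℝ) ≤ a.lo := by exact_mod_cast h
  have h2 := h1.trans hx.1
  exact nonneg_of_mul_nonneg_left h2 hS

theorem Mem.pos_of {x : ℝ} {a : Iv} (hx : Mem x a) (h : 0 < a.lo) : 0 < x := by
  have hS := SC_posR
  have h1 : (0 : ℝ) < a.lo := by exact_mod_cast h
  have h2 := h1.trans_le hx.1
  exact pos_of_mul_pos_left h2 hS.le

/-- lower bound -/
theorem Mem.le_of {x : ℝ} {a : Iv} (hx : Mem x a) {p : ℤ} (h : p ≤ a.lo) : (p : ℝ) / SC ≤ x := by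
  have hS := SC_posR
  have h1 : (p : ℝ) ≤ a.lo := by exact_mod_cast h
  rw [div_le_iff₀ hS]
  exact h1.trans hx.1

/-- upper bound -/
theorem Mem.ge_of {x : ℝ} {a : Iv} (hx : Mem x a) {p : ℤ} (h : a.hi ≤ p) : x ≤ (p : ℝ) / SC := by
  have hS := SC_posR
  have h1 : (a.hi : ℝ) ≤ p := by exact_mod_cast h
  rw [le_div_iff₀ hS]
  exact hx.2.trans h1

end Iv

-- timing test
example : (Iv.exp (Iv.pt 1000000000000000000)).hi ≤ 2718281828500000000 := by decide +kernel

end Pool.Agent.H56.Ramsey
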